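import Pool.Agent.Q149.ESB.REL
import Pool.Agent.Q124.ESN.CNTG

/-! Project ESB (helper161), job CNT: the weighted count, over a number field. -/

set_option autoImplicit false
set_option linter.unusedSectionVars false

namespace Pool.Agent.Q149.ESB

open Polynomial NumberField IsDedekindDomain Finset
open Pool.Agent.Q161.ESN (Eqv Nice iO Ov Fb Mv Rp S_RPX)
open Pool.Agent.Q161.ESB
open Pool.Agent.Q161.ESM (Semi)
open Pool.Agent.Q124.ESN
open Pool.Agent.Q51.EL (Abv Par)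

section

variable {F K : Type} [Field F] [NumberField F] [Field K] [NumberField K] [Algebra F K]

/-- a prime of `K` above a prime number lies above a prime of `F` -/
theorem exists_ov {w : HeightOneSpectrum (𝓞 K)} {l : ℕ} (hl : l ≠ 0) (hw : Abv w l) :
    ∃ v : HeightOneSpectrum (𝓞 F), Ov w v := by
  refine ⟨⟨w.asIdeal.comap (iO F K), Ideal.comap_isPrime _ _, ?_⟩, fun x => ?_⟩
  · intro h
    have h1 : (l : 𝓞 F) ∈ w.asIdeal.comap (iO F K) := by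
      rw [Ideal.mem_comap, map_natCast]
      exact hw
    rw [h, Ideal.mem_bot] at h1
    exact hl (by exact_mod_cast h1)
  · rw [Ideal.mem_comap]

theorem exists_above (v : HeightOneSpectrum (𝓞 F)) : ∃ w : HeightOneSpectrum (𝓞 K), Ov w v := by
  have := v.isMaximal
  have hker : RingHom.ker (algebraMap (𝓞 F) (𝓞 K)) ≤ v.asIdeal := by
    rw [(RingHom.injective_iff_ker_eq_bot _).1 (FaithfulSMul.algebraMap_injective (𝓞 F) (𝓞 K))]
    exact bot_le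
  obtain ⟨Q, hQ1, hQ2⟩ := Ideal.exists_ideal_over_maximal_of_isIntegral (S := 𝓞 K) v.asIdeal hker
  have hne : Q ≠ ⊥ := by
    intro h
    rw [h] at hQ2
    have h1 : Ideal.comap (algebraMap (𝓞 F) (𝓞 K)) ⊥ = ⊥ :=
      (RingHom.injective_iff_ker_eq_bot _).1 (FaithfulSMul.algebraMap_injective (𝓞 F) (𝓞 K))
    exact v.ne_bot (hQ2.symm.trans h1)
  refine ⟨⟨Q, hQ1.isPrime, hne⟩, fun x => ?_⟩
  rw [← hQ2, Ideal.mem_comap]
  rfl

/-- a product with a factor in `w` is in `w` -/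
theorem prod_mem_w {w : HeightOneSpectrum (𝓞 K)} {M : ℕ} {f : Fin M → 𝓞 K} {m : Fin M} (h : f m ∈ w.asIdeal) :
    ∏ m, f m ∈ w.asIdeal :=
  Ideal.mem_of_dvd _ (Finset.dvd_prod_of_mem f (mem_univ m)) h

theorem exists_mem_w {w : HeightOneSpectrum (𝓞 K)} {M : ℕ} {f : Fin M → 𝓞 K} (h : ∏ m, f m ∈ w.asIdeal) :
    ∃ m, f m ∈ w.asIdeal := by
  have := w.isPrime
  obtain ⟨m, -, hm⟩ := (Ideal.IsPrime.prod_mem_iff (p := w.asIdeal)).1 h
  exact ⟨m, hm⟩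

end

theorem fin_primes {F : Type} [Field F] [NumberField F] {D : 𝓞 F} (hD : D ≠ 0) :
    {v : HeightOneSpectrum (𝓞 F) | D ∈ v.asIdeal}.Finite := by
  have h : {v : HeightOneSpectrum (𝓞 F) | v.asIdeal ∣ Ideal.span {D}}.Finite :=
    Ideal.finite_factors (by rw [Ne, Ideal.zero_eq_bot, Ideal.span_singleton_eq_bot]; exact hD)
  refine h.subset fun v hv => ?_
  rw [Set.mem_ofPred_eq, Ideal.dvd_iff_le, Ideal.span_singleton_le_iff_mem]
  exact hv

open Classical in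
/-- the primes which contain `D` and not `B` -/
noncomputable def PD {F : Type} [Field F] [NumberField F] (B : ℕ) (D : 𝓞 F) : Finset (HeightOneSpectrum (𝓞 F)) :=
  if h : {v : HeightOneSpectrum (𝓞 F) | D ∈ v.asIdeal ∧ (B : 𝓞 F) ∉ v.asIdeal}.Finite then h.toFinset else ∅

theorem mem_PD {F : Type} [Field F] [NumberField F] {B : ℕ} {D : 𝓞 F} {v : HeightOneSpectrum (𝓞 F)}
    (h : v ∈ PD B D) : D ∈ v.asIdeal ∧ (B : 𝓞 F) ∉ v.asIdeal := by
  rw [PD] at h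
  split_ifs at h with h1
  · exact (Set.Finite.mem_toFinset h1).1 h
  · exact absurd h (Finset.notMem_empty _)

/-- the type of the triples -/
abbrev UT {C : Type} (F : Type) [Field F] [NumberField F] (L : C → Type) (M B : ℕ) : Type :=
  Σ D : 𝓞 F, ((c : C) → L c) × ((v : HeightOneSpectrum (𝓞 F)) → v ∈ PD B D → Fin M)

theorem om_le {F : Type} [Field F] [NumberField F] {B : ℕ} (hB : B ≠ 0) {D : 𝓞 F} (hD : D ≠ 0) :
    om D ≤ {v : HeightOneSpectrum (𝓞 F) | (B : 𝓞 F) ∈ v.asIdeal}.ncard + (PD B D).card := by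
  have h1 : {v : HeightOneSpectrum (𝓞 F) | D ∈ v.asIdeal ∧ (B : 𝓞 F) ∉ v.asIdeal}.Finite :=
    (fin_primes hD).subset fun v hv => hv.1
  have h2 : {v : HeightOneSpectrum (𝓞 F) | (B : 𝓞 F) ∈ v.asIdeal}.Finite :=
    fin_primes (by exact_mod_cast hB)
  have h3 : (PD B D).card = {v : HeightOneSpectrum (𝓞 F) | D ∈ v.asIdeal ∧ (B : 𝓞 F) ∉ v.asIdeal}.ncard := by
    rw [PD, dif_pos h1, Set.ncard_eq_toFinset_card _ h1]
  rw [h3]
  refine le_trans (Set.ncard_le_ncard ?_ (h2.union h1)) (Set.ncard_union_le _ _)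
  intro v hv
  by_cases h : (B : 𝓞 F) ∈ v.asIdeal
  · exact Or.inl h
  · exact Or.inr ⟨hv, h⟩

/-- **CNT** -/
theorem cnt : S_NIG → S_RPX → S_REL → S_LOCG → S_MN → S_CNT := by
  classical
  intro hNIG hRPX hREL hLOC hMN M C F K _ _ _ _ _ _ _ L _ _ _ th hDat V _ _ _ cd hV hsemi Bg hBg hM
  obtain ⟨hv2, hinv⟩ := hNIG C F K L th hDat V cd hV
  obtain ⟨ι, _, _, Lf, _, _, em, rp, hRp⟩ := hRPX F K V
  obtain ⟨Bl, hBl, hLOC⟩ := hLOC C F K L th hDat V cd hV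
  obtain ⟨B, C1, K0, Qm, Qa, hBB, hB0, hC, hrel⟩ :=
    hREL M C F K L th hDat V cd hV ι Lf em rp hRp (Bg * Bl) (mul_ne_zero hBg hBl)
  have dg : Bg ∣ Bg * Bl := Dvd.intro _ rfl
  have dl : Bl ∣ B := (Dvd.intro_left _ rfl).trans hBB
  obtain ⟨T, hT⟩ : ∃ T : F → ((c : C) → L c) → Set (Fin M → V → 𝓞 K),
      T = fun μ a => {z | (∃ (D : 𝓞 F) (α : (c : C) → 𝓞 (L c)), RG th cd B μ a D α (fun t => ∏ m, z m t)) ∧
        (∀ m, Eqv F (z m) ∧ ∀ i, ∃ β : 𝓞 (Lf i), em i (β : Lf i) = (z m (rp i) : K) ∧ Nice K0 β) ∧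
        ∃ ch : HeightOneSpectrum (𝓞 F) → Fin M, ∀ l : ℕ, l.Prime → ¬ l ∣ B →
          ∀ w : HeightOneSpectrum (𝓞 K), Abv w l → ∀ v : HeightOneSpectrum (𝓞 F), Ov w v →
            ∀ m t, z m t ∈ w.asIdeal → ch v = m} := ⟨_, rfl⟩
  have hcb : ∀ (μ : F) (a : (c : C) → L c), ∃ C : ℝ, 0 < C ∧ ∀ X : ℝ, 1 ≤ X →
      {z ∈ T μ a | ∃ N : 𝓞 F, ∏ m, ∏ t, z m t = iO F K N ∧
        ((Ideal.absNorm (Ideal.span {N}) : ℕ) : ℝ) ≤ X}.Finite ∧
      (({z ∈ T μ a | ∃ N : 𝓞 F, ∏ m, ∏ t, z m t = iO F K N ∧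
        ((Ideal.absNorm (Ideal.span {N}) : ℕ) : ℝ) ≤ X}.ncard : ℕ) : ℝ) ≤
          C * X * (1 + Real.log X) ^ (M - 1) := by
    intro μ a
    refine hMN M F K V hM hv2 hsemi hinv ι Lf em rp hRp B K0 (T μ a) hB0 ?_ ?_
    · intro z hz
      rw [hT] at hz
      exact hz.2.1
    · intro l hl hlB w φ hw hFb
      have h1 := hLOC B dl hB0 μ a l hl hlB w φ hw hFb
      have h2 : ∀ z ∈ T μ a, (fun t => ∏ m, z m t) ∈ {z : V → 𝓞 K | ∃ (D : 𝓞 F) (α : (c : C) → 𝓞 (L c)),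
          RG th cd B μ a D α z} := by
        intro z hz
        rw [hT] at hz
        exact hz.1
      refine ⟨?_, ?_⟩
      · intro z hz m t hm
        have h3 := h1.one _ (h2 z hz) t (prod_mem_w (f := fun m => z m t) hm)
        refine ⟨h3.1, ?_⟩
        intro m' s hne hms
        by_cases hs : s = t
        · subst hs
          rw [hT] at hz
          obtain ⟨-, -, ch, hch⟩ := hz
          obtain ⟨v, hov⟩ := exists_ov (F := F) hl.ne_zero hw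
          have h4 := hch l hl hlB w hw v hov m s hm
          have h5 := hch l hl hlB w hw v hov m' s hms
          exact hne (by rw [← h4, ← h5])
        · exact h3.2 s hs (prod_mem_w (f := fun m => z m s) hms)
      · intro z hz z' hz' t m m' hm hm' χ hχ
        have h3 := h1.two _ (h2 z hz) _ (h2 z' hz') t (prod_mem_w (f := fun m => z m t) hm)
          (prod_mem_w (f := fun m => z' m t) hm') χ hχ
        have e : ∀ s, ∏ j, z j s * z' j s = (∏ j, z j s) * ∏ j, z' j s := fun s => Finset.prod_mul_distrib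
        simp only [e]
        exact h3
  choose Cb hCb0 hCb using hcb
  obtain ⟨Q, hQ⟩ : ∃ Q : Finset (F × ((c : C) → L c)), Q = Qm ×ˢ Qa := ⟨_, rfl⟩
  obtain ⟨e0, he0⟩ : ∃ e0 : ℕ, e0 = {v : HeightOneSpectrum (𝓞 F) | (B : 𝓞 F) ∈ v.asIdeal}.ncard := ⟨_, rfl⟩
  have hS0 : 0 ≤ ∑ p ∈ Q, Cb p.1 p.2 := Finset.sum_nonneg fun p _ => (hCb0 _ _).le
  have hlC : 0 ≤ Real.log (C1 + 1) := Real.log_nonneg (by linarith)
  refine ⟨(M : ℝ) ^ e0 * ((∑ p ∈ Q, Cb p.1 p.2) * (C1 + 1) * (1 + Real.log (C1 + 1)) ^ (M - 1)) + 1, ?_, ?_⟩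
  · positivity
  intro Fs hF1 hF2 X 𝒟 hX hD1 hD2
  have hlX : 0 ≤ Real.log X := Real.log_nonneg hX
  have hCX : 1 ≤ (C1 + 1) * X := by nlinarith
  obtain ⟨U, hU⟩ : ∃ U : Finset (UT F L M B),
      U = 𝒟.sigma (fun D => (Fintype.piFinset fun c => Fs c D) ×ˢ
        ((PD B D).pi fun _ => (univ : Finset (Fin M)))) := ⟨_, rfl⟩
  have hUc : (∑ D ∈ 𝒟, M ^ (PD B D).card * ∏ c, (Fs c D).card) = U.card := by
    rw [hU, card_sigma]
    refine sum_congr rfl fun D _ => ?_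
    rw [card_product, Fintype.card_piFinset, Finset.card_pi, Finset.prod_const, Finset.card_univ,
      Fintype.card_fin, mul_comm]
  have hUmem : ∀ x ∈ U, x.1 ∈ 𝒟 ∧ (∀ c, x.2.1 c ∈ Fs c x.1) := by
    intro x hx
    rw [hU, mem_sigma, mem_product] at hx
    exact ⟨hx.1, fun c => Fintype.mem_piFinset.1 hx.2.1 c⟩
  obtain ⟨m0⟩ : Nonempty (Fin M) := ⟨⟨0, by omega⟩⟩
  obtain ⟨chx, hchx⟩ : ∃ chx : UT F L M B → HeightOneSpectrum (𝓞 F) → Fin M,
      ∀ (x : UT F L M B) (v : HeightOneSpectrum (𝓞 F)) (h : v ∈ PD B x.1), chx x v = x.2.2 v h :=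
    ⟨fun x v => if h : v ∈ PD B x.1 then x.2.2 v h else m0, fun x v h => dif_pos h⟩
  have hex : ∀ x ∈ U, ∃ y : (F × ((c : C) → L c)) × (Fin M → V → 𝓞 K),
      y.1 ∈ Q ∧ (∃ α : (c : C) → 𝓞 (L c), RG th cd B y.1.1 y.1.2 x.1 α (fun t => ∏ m, y.2 m t) ∧
        ∀ c, ∃ η : L c, η ≠ 0 ∧ (α c : L c) = x.2.1 c * η ^ 2) ∧
      (∀ m, Eqv F (y.2 m) ∧
        ∀ i, ∃ β : 𝓞 (Lf i), em i (β : Lf i) = (y.2 m (rp i) : K) ∧ Nice K0 β) ∧
      (∃ N : 𝓞 F, ∏ m, ∏ t, y.2 m t = iO F K N ∧ ((Ideal.absNorm (Ideal.span {N}) : ℕ) : ℝ) ≤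
        C1 * ((Ideal.absNorm (Ideal.span {x.1}) : ℕ) : ℝ)) ∧
      ∀ l : ℕ, l.Prime → ¬ l ∣ B → ∀ w : HeightOneSpectrum (𝓞 K), Abv w l →
        ∀ v : HeightOneSpectrum (𝓞 F), Ov w v → ∀ m t, y.2 m t ∈ w.asIdeal → chx x v = m := by
    intro x hx
    obtain ⟨h1, h2⟩ := hUmem x hx
    obtain ⟨μ, hμ, a, ha, α, z, k1, k2, k3, k4, k5⟩ :=
      hrel x.1 x.2.1 (chx x) (sqF_mono (hD1 _ h1).1 dg) (fun c => (hF1 c x.1 (x.2.1 c) (h2 c)).1)
        (fun c => gd1_mono (hF1 c x.1 (x.2.1 c) (h2 c)).2 dg)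
    refine ⟨((μ, a), z), ?_, ⟨α, k1, k4⟩, k2, k3,
      fun l hl hlB w hw v hov m t hm => (k5 l hl hlB w hw v hov m t hm).2⟩
    rw [hQ, mem_product]
    exact ⟨hμ, ha⟩
  choose! Ψ hΨ using hex
  obtain ⟨bx, hbx⟩ : ∃ bx : (F × ((c : C) → L c)) → Finset (Fin M → V → 𝓞 K),
      ∀ p, (∀ z, z ∈ bx p ↔ z ∈ {z ∈ T p.1 p.2 | ∃ N : 𝓞 F, ∏ m, ∏ t, z m t = iO F K N ∧
        ((Ideal.absNorm (Ideal.span {N}) : ℕ) : ℝ) ≤ (C1 + 1) * X}) ∧
        ((bx p).card : ℝ) ≤ Cb p.1 p.2 * ((C1 + 1) * X) * (1 + Real.log ((C1 + 1) * X)) ^ (M - 1) := by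
    refine ⟨fun p => (hCb p.1 p.2 ((C1 + 1) * X) hCX).1.toFinset, ?_⟩
    intro p
    refine ⟨fun z => Set.Finite.mem_toFinset _, ?_⟩
    rw [← Set.ncard_eq_toFinset_card _ (hCb p.1 p.2 ((C1 + 1) * X) hCX).1]
    exact (hCb p.1 p.2 ((C1 + 1) * X) hCX).2
  obtain ⟨W, hW⟩ : ∃ W : Finset (Σ _ : (F × ((c : C) → L c)), (Fin M → V → 𝓞 K)),
      W = Q.sigma (fun p => bx p) := ⟨_, rfl⟩
  have hWc : (W.card : ℝ) ≤
      (∑ p ∈ Q, Cb p.1 p.2) * ((C1 + 1) * X) * (1 + Real.log ((C1 + 1) * X)) ^ (M - 1) := by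
    rw [hW, card_sigma]
    push_cast
    rw [Finset.sum_mul, Finset.sum_mul]
    exact Finset.sum_le_sum fun p _ => (hbx p).2
  have hle : U.card ≤ W.card := by
    apply Finset.card_le_card_of_injOn
      (fun x => (⟨(Ψ x).1, (Ψ x).2⟩ : Σ _ : (F × ((c : C) → L c)), (Fin M → V → 𝓞 K)))
    · intro x hx
      have hx' : x ∈ U := hx
      obtain ⟨h1, h2⟩ := hUmem x hx'
      obtain ⟨k1, ⟨α, k2, -⟩, k3, ⟨N, k4, k5⟩, k6⟩ := hΨ x hx'
      rw [mem_coe, hW, mem_sigma]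
      refine ⟨k1, ?_⟩
      rw [(hbx _).1]
      refine ⟨?_, N, k4, k5.trans ?_⟩
      · rw [hT]
        exact ⟨⟨x.1, α, k2⟩, k3, chx x, k6⟩
      · have h3 := (hD1 _ h1).2
        nlinarith [Nat.cast_nonneg (α := ℝ) (Ideal.absNorm (Ideal.span {x.1}))]
    · intro x hx x' hx' hΨΨ
      have hxU : x ∈ U := hx
      have hxU' : x' ∈ U := hx'
      have hΨeq : Ψ x = Ψ x' := by
        have h1 := congrArg Sigma.fst hΨΨ
        have h2 := congrArg (fun z : (Σ _ : (F × ((c : C) → L c)), (Fin M → V → 𝓞 K)) => z.2) hΨΨ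
        exact Prod.ext h1 h2
      obtain ⟨h1, h2⟩ := hUmem x hxU
      obtain ⟨h1', h2'⟩ := hUmem x' hxU'
      obtain ⟨-, ⟨α, hR, hα⟩, -, -, hch⟩ := hΨ x hxU
      obtain ⟨-, ⟨α', hR', hα'⟩, -, -, hch'⟩ := hΨ x' hxU'
      rw [← hΨeq] at hR' hch'
      have hP0 : (∏ t, ((∏ m, (Ψ x).2 m t : 𝓞 K) : K)) ≠ 0 := by
        rw [prod_ne_zero_iff]
        intro t _
        exact cne (hR.rel.ne t)
      have hD : x.1 = x'.1 := by
        by_contra hne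
        obtain ⟨s, hs, e⟩ := hR.qd
        obtain ⟨s', -, e'⟩ := hR'.qd
        exact hD2 x.1 h1 x'.1 h1' hne (isSquare_of_qd (cne hR.rel.sq.1) hs hP0 e e')
      have hδ : x.2.1 = x'.2.1 := by
        funext c
        by_contra hne
        have h3'' : ∀ D0 : 𝓞 F, D0 = x'.1 → x'.2.1 c ∈ Fs c D0 := by
          intro D0 h
          rw [h]
          exact h2' c
        have h3' := h3'' x.1 hD
        obtain ⟨η, hη, he⟩ := hα c
        obtain ⟨η', hη', he'⟩ := hα' c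
        obtain ⟨q, hq, hqa⟩ := hR.qa c
        obtain ⟨q', hq', hqa'⟩ := hR'.qa c
        have hα0 : ((α c : 𝓞 (L c)) : L c) ≠ 0 := cne (hR.rel.a0 c)
        obtain ⟨ι0⟩ : Nonempty (L c →ₐ[F] K) := by
          rw [← Fintype.card_pos_iff]
          exact (hDat c).odd.pos
        have e1 := hqa ι0
        have e2 := hqa' ι0
        have hP : (∏ t ∈ univ.filter (fun t => cd t c ι0 = 1), ((∏ m, (Ψ x).2 m t : 𝓞 K) : K)) ≠ 0 := by
          rw [prod_ne_zero_iff]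
          intro t _
          exact cne (hR.rel.ne t)
        have ha0 : (Ψ x).1.2 c ≠ 0 := by
          intro h
          rw [h, map_zero, zero_mul] at e1
          exact mul_ne_zero ((_root_.map_ne_zero ι0).2 hα0) hP e1
        refine hF2 c x.1 (x.2.1 c) (h2 c) (x'.2.1 c) h3' hne
          (sq_of (q' := q') hα0 hq hη hη' he he' ha0 ?_)
        have hinj : Function.Injective ι0 := ι0.toRingHom.injective
        apply hinj
        apply mul_left_cancel₀ hP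
        rw [map_mul, map_mul, map_mul, map_mul, map_pow, map_pow, ← e1, ← e2]
        ring
      have hchch : ∀ v ∈ PD B x.1, chx x v = chx x' v := by
        intro v hv
        obtain ⟨hDv, hBv⟩ := mem_PD hv
        obtain ⟨l, hl, hlB, hvl⟩ := exists_prime_below v hB0 hBv
        obtain ⟨w, hov⟩ := exists_above (K := K) v
        have hw : Abv w l := by
          have := (hov (l : 𝓞 F)).1 hvl
          rwa [map_natCast] at this
        have hDw : iO F K x.1 ∈ w.asIdeal := (hov x.1).1 hDv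
        obtain ⟨t, ht⟩ := tpg_ex hV hR.rel.gd hR.rel.nrm hl hlB hw hDw
        have h3 := (hR.rel.typ l hl hlB w hw t).1 ⟨hDw, ht⟩
        have h4 : (∏ m, (Ψ x).2 m t) ∈ w.asIdeal := by
          rw [← w.valuation_lt_one_iff_mem (K := K)]
          change w.valuation K ((∏ m, (Ψ x).2 m t : 𝓞 K) : K) < 1
          rw [h3, ← WithZero.exp_zero, WithZero.exp_lt_exp]
          omega
        obtain ⟨m, hm⟩ := exists_mem_w h4
        rw [hch l hl hlB w hw v hov m t hm, hch' l hl hlB w hw v hov m t hm]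
      obtain ⟨D, δ, f⟩ := x
      obtain ⟨D', δ', f'⟩ := x'
      simp only at hD hδ
      subst hD
      subst hδ
      have hf : f = f' := by
        funext v hv
        have h3 := hchch v hv
        rw [hchx ⟨D, δ, f⟩ v hv, hchx ⟨D, δ, f'⟩ v hv] at h3
        exact h3
      rw [hf]
  have hM1 : (1 : ℝ) ≤ M := by exact_mod_cast hM
  have h0 : (∑ D ∈ 𝒟, M ^ om D * ∏ c, (Fs c D).card) ≤ M ^ e0 * U.card := by
    rw [← hUc, Finset.mul_sum]
    refine Finset.sum_le_sum fun D hD => ?_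
    rw [← mul_assoc, ← pow_add]
    refine Nat.mul_le_mul_right _ (Nat.pow_le_pow_right hM ?_)
    rw [he0]
    exact om_le hB0 (hD1 D hD).1.1
  have h1 : (U.card : ℝ) ≤ W.card := by exact_mod_cast hle
  have h2 := h1.trans hWc
  have h3 : 1 + Real.log ((C1 + 1) * X) ≤ (1 + Real.log (C1 + 1)) * (1 + Real.log X) := by
    rw [Real.log_mul (by linarith) (by linarith)]
    nlinarith [mul_nonneg hlC hlX]
  have h4 : (1 + Real.log ((C1 + 1) * X)) ^ (M - 1) ≤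
      (1 + Real.log (C1 + 1)) ^ (M - 1) * (1 + Real.log X) ^ (M - 1) := by
    rw [← mul_pow]
    exact pow_le_pow_left₀ (by linarith [Real.log_nonneg hCX]) h3 _
  have h5 : (U.card : ℝ) ≤ (∑ p ∈ Q, Cb p.1 p.2) * ((C1 + 1) * X) *
      ((1 + Real.log (C1 + 1)) ^ (M - 1) * (1 + Real.log X) ^ (M - 1)) :=
    h2.trans (mul_le_mul_of_nonneg_left h4 (by positivity))
  have h6 : ((∑ D ∈ 𝒟, M ^ om D * ∏ c, (Fs c D).card : ℕ) : ℝ) ≤ (M : ℝ) ^ e0 * U.card := by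
    exact_mod_cast h0
  calc ((∑ D ∈ 𝒟, M ^ om D * ∏ c, (Fs c D).card : ℕ) : ℝ) ≤ (M : ℝ) ^ e0 * U.card := h6
    _ ≤ (M : ℝ) ^ e0 * ((∑ p ∈ Q, Cb p.1 p.2) * ((C1 + 1) * X) *
      ((1 + Real.log (C1 + 1)) ^ (M - 1) * (1 + Real.log X) ^ (M - 1))) :=
        mul_le_mul_of_nonneg_left h5 (by positivity)
    _ = (M : ℝ) ^ e0 * ((∑ p ∈ Q, Cb p.1 p.2) * (C1 + 1) * (1 + Real.log (C1 + 1)) ^ (M - 1)) * X *
        (1 + Real.log X) ^ (M - 1) := by ring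
    _ ≤ _ := by
        refine mul_le_mul_of_nonneg_right (mul_le_mul_of_nonneg_right ?_ (by linarith)) (by positivity)
        linarith

end Pool.Agent.Q149.ESB
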