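import Pool.Agent.Q161.ESB.Stm3
import Pool.Agent.Q124.ESN.RELG

/-! Project ESB (helper161), job REL: from the Selmer elements to the `M` functions `z m`, over a number field. -/

set_option autoImplicit false
set_option linter.unusedSectionVars false

namespace Pool.Agent.Q149.ESB

open Polynomial NumberField IsDedekindDomain Finset
open Pool.Agent.Q161.ESN (Eqv Nice iO Ov Fb Mv Rp S_FRX)
open Pool.Agent.Q161.ESB
open Pool.Agent.Q124.ESN
open Pool.Agent.Q51.EL (Abv Par)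

section

variable {F K : Type} [Field F] [NumberField F] [Field K] [NumberField K] [Algebra F K]

/-- a prime of `K` lies above only one prime of `F` -/
theorem ov_unique {w : HeightOneSpectrum (𝓞 K)} {v v' : HeightOneSpectrum (𝓞 F)} (h : Ov w v) (h' : Ov w v') :
    v = v' := by
  apply HeightOneSpectrum.ext
  ext x
  rw [h x, h' x]

/-- a product of equivariant functions is equivariant -/
theorem eqv_prod {V : Type} [AddCommGroup V] [DistribMulAction (K ≃ₐ[F] K) V] {M : ℕ} {z : Fin M → V → 𝓞 K}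
    (h : ∀ m, Eqv F (z m)) : Eqv F (fun t => ∏ m, z m t) := by
  intro g t
  have e : ∀ s : V, ((∏ m, z m s : 𝓞 K) : K) = ∏ m, ((z m s : 𝓞 K) : K) := fun s =>
    map_prod (algebraMap (𝓞 K) K) _ _
  change ((∏ m, z m (g • t) : 𝓞 K) : K) = g ((∏ m, z m t : 𝓞 K) : K)
  rw [e, e, map_prod]
  exact Finset.prod_congr rfl fun m _ => h m g t

end

/-- **REL** -/
theorem rel : S_NRM → S_ZEX → S_QAG → S_QDG → S_FRX → S_REL := by
  classical
  intro hNRM hZEX hQAG hQDG hFRX M C F K _ _ _ _ _ _ _ L _ _ _ th hDat V _ _ _ cd hV ι _ Lf _ _ em rp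
    hRp B1 hB1
  obtain ⟨Bz, C0, K0, hBz, hC0, hZEX⟩ := hZEX F K V ι Lf em rp hRp
  obtain ⟨Ba, hBa, hQA⟩ := hQAG C F K L th hDat V cd hV
  obtain ⟨Bm, hBm, hQM⟩ := hQDG C F K L th hDat V cd hV
  obtain ⟨Bt, hBt, hFR⟩ := hFRX F K
  choose Bd hBd hnrm using fun c => hNRM F K (L c) (th c)
  let B : ℕ := B1 * (∏ c, Bd c) * Bz * Bt * Ba * Bm
  have hB0 : B ≠ 0 := by
    have h1 : ∏ c, Bd c ≠ 0 := Finset.prod_ne_zero_iff.2 fun c _ => hBd c
    exact mul_ne_zero (mul_ne_zero (mul_ne_zero (mul_ne_zero (mul_ne_zero hB1 h1) hBz) hBt) hBa) hBm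
  have dm : Bm ∣ B := Dvd.intro_left _ rfl
  have d5 : B1 * (∏ c, Bd c) * Bz * Bt * Ba ∣ B := Dvd.intro _ rfl
  have da : Ba ∣ B := (Dvd.intro_left _ rfl).trans d5
  have d4 : B1 * (∏ c, Bd c) * Bz * Bt ∣ B := (Dvd.intro _ rfl).trans d5
  have dt : Bt ∣ B := (Dvd.intro_left _ rfl).trans d4
  have d3 : B1 * (∏ c, Bd c) * Bz ∣ B := (Dvd.intro _ rfl).trans d4
  have dz : Bz ∣ B := (Dvd.intro_left _ rfl).trans d3
  have d2 : B1 * (∏ c, Bd c) ∣ B := (Dvd.intro _ rfl).trans d3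
  have dp : (∏ c, Bd c) ∣ B := (Dvd.intro_left _ rfl).trans d2
  have d1 : B1 ∣ B := (Dvd.intro _ rfl).trans d2
  have dd : ∀ c, Bd c ∣ B := fun c => (Finset.dvd_prod_of_mem Bd (mem_univ c)).trans dp
  obtain ⟨Qa, hQA⟩ := hQA B da hB0
  obtain ⟨Qm, hQM⟩ := hQM B dm hB0
  refine ⟨B, C0 ^ M, K0, Qm, Fintype.piFinset Qa, d1, hB0, pow_pos hC0 M, ?_⟩
  intro D δ ch hD hδ hgd
  have hD0 : D ≠ 0 := hD.1
  choose α η hα hη hαe hgdα hval using
    fun c => hnrm c B (dd c) D (δ c) (hδ c) (gd1_mono (hgd c) d1)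
  have hval' : ∀ l : ℕ, l.Prime → ¬ l ∣ B → ∀ w : HeightOneSpectrum (𝓞 K), Abv w l →
      ∀ (c : C) (ι : L c →ₐ[F] K),
      w.valuation K (ι (α c : L c)) = 1 ∨ w.valuation K (ι (α c : L c)) = WithZero.exp (-1 : ℤ) :=
    fun l hl hlB w hw c ι' => hval c l hl hlB w hw ι'
  -- the primes of `F` containing `D`
  have hfin : {v : HeightOneSpectrum (𝓞 F) | v.asIdeal ∣ Ideal.span {D}}.Finite :=
    Ideal.finite_factors (by rw [Ne, Ideal.zero_eq_bot, Ideal.span_singleton_eq_bot]; exact hD0)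
  obtain ⟨R, hRe⟩ : ∃ R : Finset (HeightOneSpectrum (𝓞 F)),
      R = hfin.toFinset.filter fun v => (B : 𝓞 F) ∉ v.asIdeal := ⟨_, rfl⟩
  have hR : ∀ v, v ∈ R ↔ D ∈ v.asIdeal ∧ (B : 𝓞 F) ∉ v.asIdeal := by
    intro v
    rw [hRe, Finset.mem_filter, Set.Finite.mem_toFinset, Set.mem_ofPred_eq, Ideal.dvd_iff_le,
      Ideal.span_singleton_le_iff_mem]
  let τ : HeightOneSpectrum (𝓞 K) → V := fun w =>
    if h : ∃ t : V, TpG cd α w t then h.choose else 0
  have hτ : ∀ l : ℕ, l.Prime → ¬ l ∣ B → ∀ w : HeightOneSpectrum (𝓞 K), Abv w l →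
      iO F K D ∈ w.asIdeal → TpG cd α w (τ w) := by
    intro l hl hlB w hw hDw
    have hex' := tpg_ex hV hgdα hval' hl hlB hw hDw
    have h1 : τ w = hex'.choose := dif_pos hex'
    rw [h1]
    exact hex'.choose_spec
  have hz := fun m : Fin M => hZEX (R.filter fun v => ch v = m) τ
    (by
      intro v hv h'
      refine ((hR v).1 (Finset.mem_filter.1 hv).1).2 ?_
      obtain ⟨m, hm⟩ := dz
      rw [hm, Nat.cast_mul]
      exact Ideal.mul_mem_right _ _ h')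
    (by
      intro v hv w w' g hov hMv
      obtain ⟨h1, h2⟩ := (hR v).1 (Finset.mem_filter.1 hv).1
      obtain ⟨l, hl, hlB, hvl⟩ := exists_prime_below v hB0 h2
      have hw : Abv w l := by
        have := (hov (l : 𝓞 F)).1 hvl
        rwa [map_natCast] at this
      have hDw : iO F K D ∈ w.asIdeal := (hov D).1 h1
      have hw' : Abv w' l := (hMv (l : 𝓞 K) (l : 𝓞 K) (by simp)).1 hw
      have hDw' : iO F K D ∈ w'.asIdeal := (mv_iO hMv D).1 hDw
      exact tpg_unique hV (hτ l hl hlB w' hw' hDw') (tpg_mv hV hMv (hτ l hl hlB w hw hDw)))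
  choose z hz1 hz2 hz3 hz4 N hN1 hN2 using hz
  have hcoe : ∀ t : V, ((∏ m, z m t : 𝓞 K) : K) = ∏ m, ((z m t : 𝓞 K) : K) := fun t =>
    map_prod (algebraMap (𝓞 K) K) _ _
  have hRel0 : RG0 th cd B D α (fun t => ∏ m, z m t) := by
    refine ⟨sqF_mono hD d1, hgdα, hα, hval', eqv_prod hz1,
      fun t => Finset.prod_ne_zero_iff.2 fun m _ => hz2 m t, ?_⟩
    intro l hl hlB w hw t
    have h1 := fun m => hz4 m l hl (fun h' => hlB (h'.trans dz)) w hw t
    obtain ⟨-, -, -, h5⟩ := hFR l hl fun h' => hlB (h'.trans dt)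
    obtain ⟨v, hov, hvl, -⟩ := h5 w hw
    have e : w.valuation K ((∏ m, z m t : 𝓞 K) : K) = ∏ m, w.valuation K ((z m t : 𝓞 K) : K) := by
      rw [hcoe, map_prod]
    change (_ → w.valuation K ((∏ m, z m t : 𝓞 K) : K) = _) ∧
      (_ → w.valuation K ((∏ m, z m t : 𝓞 K) : K) = 1)
    rw [e]
    constructor
    · rintro ⟨h3, h4⟩
      have hvR : v ∈ R := (hR v).2 ⟨(hov D).2 h3, not_mem_of_abv hl hvl hlB⟩
      have hτt : τ w = t := tpg_unique hV (hτ l hl hlB w hw h3) h4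
      rw [Finset.prod_eq_single (ch v)]
      · exact (h1 (ch v)).1 ⟨⟨v, Finset.mem_filter.2 ⟨hvR, rfl⟩, hov⟩, hτt⟩
      · intro m _ hm
        refine (h1 m).2 ?_
        rintro ⟨⟨v', hv', hov'⟩, -⟩
        rw [← ov_unique hov hov'] at hv'
        exact hm (Finset.mem_filter.1 hv').2.symm
      · exact fun h => absurd (mem_univ _) h
    · intro h3
      refine Finset.prod_eq_one fun m _ => (h1 m).2 ?_
      rintro ⟨⟨v', hv', hov'⟩, h6⟩
      apply h3
      have h7 : iO F K D ∈ w.asIdeal := (hov' D).1 ((hR v').1 (Finset.mem_filter.1 hv').1).1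
      exact ⟨h7, h6 ▸ hτ l hl hlB w hw h7⟩
  choose a ha q hq hqe using fun c => hQA D α _ hRel0 c
  obtain ⟨μ, hμ, s, hs, hse⟩ := hQM D α _ hRel0
  refine ⟨μ, hμ, a, Fintype.mem_piFinset.2 ha, α, z,
    ⟨hRel0, fun c => ⟨q c, hq c, hqe c⟩, ⟨s, hs, hse⟩⟩, fun m => ⟨hz1 m, hz3 m⟩,
    ⟨∏ m, N m, ?_, ?_⟩, fun c => ⟨η c, hη c, hαe c⟩, ?_⟩
  · rw [map_prod]
    exact Finset.prod_congr rfl fun m _ => hN1 m
  · have h1 : Ideal.span {∏ m, N m} = ∏ m, Ideal.span {N m} := (Ideal.prod_span_singleton _ _).symm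
    rw [h1, map_prod]
    push_cast
    calc ∏ m, ((Ideal.absNorm (Ideal.span {N m}) : ℕ) : ℝ)
        ≤ ∏ m : Fin M, (C0 * ∏ v ∈ R.filter (fun v => ch v = m), ((Ideal.absNorm v.asIdeal : ℕ) : ℝ)) :=
          Finset.prod_le_prod (fun m _ => Nat.cast_nonneg _) fun m _ => hN2 m
      _ = C0 ^ M * ∏ v ∈ R, ((Ideal.absNorm v.asIdeal : ℕ) : ℝ) := by
          rw [Finset.prod_mul_distrib, Finset.prod_const, Finset.card_univ, Fintype.card_fin,
            Finset.prod_fiberwise]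
      _ ≤ _ := mul_le_mul_of_nonneg_left (prod_norm_le hD0 R fun v hv => ((hR v).1 hv).1)
          (pow_nonneg hC0.le M)
  · intro l hl hlB w hw v hov m t hm
    have h1 := (hz4 m l hl (fun h' => hlB (h'.trans dz)) w hw t).2
    by_contra hcon
    have h2 : ¬ ((∃ v ∈ R.filter (fun v => ch v = m), Ov w v) ∧ τ w = t) := by
      rintro ⟨⟨v', hv', hov'⟩, -⟩
      rw [← ov_unique hov hov'] at hv'
      obtain ⟨h3, h4⟩ := Finset.mem_filter.1 hv'
      exact hcon ⟨((hR v).1 h3).1, h4⟩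
    have h3 := h1 h2
    have h4 : w.valuation K ((z m t : 𝓞 K) : K) < 1 := (w.valuation_lt_one_iff_mem _).2 hm
    rw [h3] at h4
    exact lt_irrefl _ h4

end Pool.Agent.Q149.ESB
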